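import Pool.Agent.H.MP_e1e5e2_ag.A

set_option autoImplicit false

namespace Pool.Agent.Results.MP_e1e5e2_ag.Embedded

open MvPolynomial

/-- The Lovász–Saks–Schrijver ideal: the variable `(i, j)` is the `i`-th coordinate of the vector
attached to the vertex `j`. -/
noncomputable def lss (k : Type) [Field k] (d : ℕ) {n : ℕ} (G : SimpleGraph (Fin n)) :
    Ideal (MvPolynomial (Fin d × Fin n) k) :=
  Ideal.span {p | ∃ j l, G.Adj j l ∧ p = ∑ i : Fin d, X (i, j) * X (i, l)}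

/-- A graph with 8 vertices and 12 edges. -/
def graph : SimpleGraph (Fin 8) :=
  SimpleGraph.fromRel fun j l => (j, l) ∈ [((0 : Fin 8), (2 : Fin 8)), (0, 3), (0, 4), (1, 2),
    (1, 3), (1, 4), (0, 5), (2, 5), (1, 6), (3, 6), (5, 7), (6, 7)]

theorem result (k : Type) [Field k] :
    ∃ P : Ideal (MvPolynomial (Fin 3 × Fin 8) k),
      IsAssociatedPrime P (MvPolynomial (Fin 3 × Fin 8) k ⧸ lss k 3 graph) ∧
        P ∉ (lss k 3 graph).minimalPrimes := by
  have kill : ∀ (T : Type) [CommRing T] (φ : MvPolynomial (Fin 3 × Fin 8) k →+* T),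
      (∀ p ∈ [((0 : Fin 8), (2 : Fin 8)), (0, 3), (0, 4), (1, 2),
        (1, 3), (1, 4), (0, 5), (2, 5), (1, 6), (3, 6), (5, 7), (6, 7)],
        φ (X (0, p.1)) * φ (X (0, p.2)) + φ (X (1, p.1)) * φ (X (1, p.2)) +
          φ (X (2, p.1)) * φ (X (2, p.2)) = 0) → ∀ x ∈ lss k 3 graph, φ x = 0 := by
    intro T _ φ h x hx
    refine (show lss k 3 graph ≤ RingHom.ker φ from Ideal.span_le.2 ?_) hx
    rintro _ ⟨j, l, ⟨-, h1 | h1⟩, rfl⟩
    · simpa [Fin.sum_univ_three] using h _ h1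
    · simpa [Fin.sum_univ_three, mul_comm] using h _ h1
  have mem : ∀ j l : Fin 8, graph.Adj j l →
      X (0, j) * X (0, l) + X (1, j) * X (1, l) + X (2, j) * X (2, l) ∈ lss k 3 graph :=
    fun j l h => Ideal.subset_span ⟨j, l, h, by simp [Fin.sum_univ_three]⟩
  have rel : ∀ (T : Type) [CommRing T] (φ : MvPolynomial (Fin 3 × Fin 8) k →+* T),
      (∀ x ∈ lss k 3 graph, φ x = 0) → ∀ p ∈ [((0 : Fin 8), (2 : Fin 8)), (0, 3), (0, 4), (1, 2),
        (1, 3), (1, 4), (0, 5), (2, 5), (1, 6), (3, 6), (5, 7), (6, 7)],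
        φ (X (0, p.1)) * φ (X (0, p.2)) + φ (X (1, p.1)) * φ (X (1, p.2)) +
          φ (X (2, p.1)) * φ (X (2, p.2)) = 0 := by
    intro T _ φ h p hp
    have : p.1 ≠ p.2 := by revert p; decide
    simpa using h _ (mem p.1 p.2 ⟨this, Or.inl hp⟩)
  let ε : DualNumber k := DualNumber.eps
  have hε : ε * ε = 0 := DualNumber.eps_mul_eps
  let χ : MvPolynomial (Fin 3 × Fin 8) k →+* DualNumber k := (aeval fun p : Fin 3 × Fin 8 =>
    (![![1, 1, 0, 0, 0, 0, -ε, 1], ![0, 0, 1, 1, 1, 0, ε, 1], ![0, ε, 0, -ε, 0, 1, 1, 0]] :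
      Fin 3 → Fin 8 → DualNumber k) p.1 p.2).toRingHom
  obtain ⟨P, h1, h2, h3⟩ := Lss.exists_ass (lss k 3 graph) χ
    (kill _ _ (by simp [χ, hε])) (X (2, 0) * X (0, 1) - X (0, 0) * X (2, 1))
    (by simpa [χ, ε] using fun h => by simpa using congrArg TrivSqZeroExt.snd h)
  have := h1.isPrime
  refine ⟨P, h1, ?_⟩
  have hI : lss k 3 graph ≤ P := fun x hx => h3 x (Ideal.mul_mem_right _ _ hx)
  have r := rel _ (Ideal.Quotient.mk (lss k 3 graph)) fun x => Ideal.Quotient.eq_zero_iff_mem.2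
  simp only [List.forall_mem_cons] at r
  obtain ⟨r1, r2, r3, r4, r5, r6, r7, r8, r9, r10, r11, r12, -⟩ := r
  obtain ⟨a1, a2⟩ := Lss.alg r1 r2 r3 r4 r5 r6 r7 r8 r9 r10 r11 r12
  simp only [← map_mul, ← map_add, ← map_sub, Ideal.Quotient.eq_zero_iff_mem] at a1 a2
  have b1 := h3 _ a1
  have b2 := (this.mem_or_mem (h3 _ a2)).resolve_left (h2 _ (by simp [χ]))
  have b3 := h2 (X (0, 0) * (X (0, 2) * X (0, 2) + X (1, 2) * X (1, 2) + X (2, 2) * X (2, 2)))
    (by simp [χ])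
  set π := Ideal.Quotient.mk P
  have r := rel _ π fun x hx => Ideal.Quotient.eq_zero_iff_mem.2 (hI hx)
  simp only [List.forall_mem_cons] at r
  obtain ⟨r1, r2, r3, r4, r5, r6, r7, r8, r9, r10, r11, r12, -⟩ := r
  rw [← Ideal.Quotient.eq_zero_iff_mem] at b2 b3
  have b4 := Ideal.Quotient.eq_zero_iff_mem.2 b1
  simp only [map_mul, map_add, map_sub] at b2 b3 b4
  let c : Fin 3 → MvPolynomial (Fin 3 × Fin 8) k ⧸ P :=
    ![π (X (1, 0)) * π (X (2, 2)) - π (X (2, 0)) * π (X (1, 2)),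
      π (X (2, 0)) * π (X (0, 2)) - π (X (0, 0)) * π (X (2, 2)),
      π (X (0, 0)) * π (X (1, 2)) - π (X (1, 0)) * π (X (0, 2))]
  let ψ : MvPolynomial (Fin 3 × Fin 8) k →+* Polynomial (MvPolynomial (Fin 3 × Fin 8) k ⧸ P) :=
    eval₂Hom (Polynomial.C.comp (π.comp C)) fun p =>
      Polynomial.C (π (X p)) + if p.2 = 4 then Polynomial.C (c p.1) * Polynomial.X else 0
  have hψ : (Polynomial.evalRingHom 0).comp ψ = π := by
    refine ringHom_ext (fun a => by simp [ψ]) fun p => ?_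
    by_cases h : p.2 = 4 <;> simp [ψ, h]
  have s0 : ∀ i (j : Fin 8), j ≠ 4 → ψ (X (i, j)) = Polynomial.C (π (X (i, j))) := by
    intro i j h
    simp [ψ, h]
  have s1 : ∀ i, ψ (X (i, 4)) = Polynomial.C (π (X (i, 4))) +
      Polynomial.C (c i) * Polynomial.X := by
    intro i
    simp [ψ]
  refine Lss.not_min ψ (kill _ _ ?_) (fun x hx => ?_) b1 fun h => b3 ?_
  · have t : ∀ j l : Fin 8, j ≠ 4 → l ≠ 4 → π (X (0, j)) * π (X (0, l)) +
        π (X (1, j)) * π (X (1, l)) + π (X (2, j)) * π (X (2, l)) = 0 →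
        ψ (X (0, j)) * ψ (X (0, l)) + ψ (X (1, j)) * ψ (X (1, l)) +
          ψ (X (2, j)) * ψ (X (2, l)) = 0 := by
      intro j l hj hl h
      simp only [s0 _ _ hj, s0 _ _ hl, ← map_mul, ← map_add] at h ⊢
      rw [h, map_zero]
    have t' : ∀ j : Fin 8, j ≠ 4 → π (X (0, j)) * π (X (0, 4)) +
        π (X (1, j)) * π (X (1, 4)) + π (X (2, j)) * π (X (2, 4)) = 0 →
        π (X (0, j)) * c 0 + π (X (1, j)) * c 1 + π (X (2, j)) * c 2 = 0 →
        ψ (X (0, j)) * ψ (X (0, 4)) + ψ (X (1, j)) * ψ (X (1, 4)) +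
          ψ (X (2, j)) * ψ (X (2, 4)) = 0 := by
      intro j hj h h'
      have e := congrArg Polynomial.C h
      have e' := congrArg Polynomial.C h'
      simp only [map_mul, map_add, map_zero] at e e'
      simp only [s0 _ _ hj, s1]
      linear_combination e + Polynomial.X * e'
    simp only [List.forall_mem_cons]
    refine ⟨t _ _ (by decide) (by decide) r1, t _ _ (by decide) (by decide) r2,
      t' _ (by decide) r3 ?_, t _ _ (by decide) (by decide) r4, t _ _ (by decide) (by decide) r5,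
      t' _ (by decide) r6 b2, t _ _ (by decide) (by decide) r7, t _ _ (by decide) (by decide) r8,
      t _ _ (by decide) (by decide) r9, t _ _ (by decide) (by decide) r10,
      t _ _ (by decide) (by decide) r11, t _ _ (by decide) (by decide) r12, by simp⟩
    change _ * (_ - _) + _ * (_ - _) + _ * (_ - _) = _
    ring
  · rw [← Ideal.Quotient.eq_zero_iff_mem]
    change π x = 0
    rw [← hψ, RingHom.comp_apply, hx, map_zero]
  · simp only [map_mul, map_sub, s1, s0 _ 2 (by decide)] at h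
    have e := congrArg (Polynomial.eval 1) h
    simp only [Polynomial.eval_mul, Polynomial.eval_sub, Polynomial.eval_add, Polynomial.eval_C,
      Polynomial.eval_X, Polynomial.eval_zero] at e
    change _ * (_ + (_ - _) * 1) - _ * (_ + (_ - _) * 1) = _ at e
    linear_combination e - b4 + π (X (0, 2)) * r1

end Pool.Agent.Results.MP_e1e5e2_ag.Embedded
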